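import Mathlib
import Pool.Agent.H79.QMat2

set_option autoImplicit false

universe u v

open Pool.Agent.H79 in
theorem Pool.Agent.Results.MP_188fab_co.NonRepresentable.result (F : Type) [Field F] [CharP F 2] :
    ∃ (N n : ℕ) (g : Fin N → MvPolynomial (Fin n) F), (∀ i, (g i).IsHomogeneous 2 ∧ g i ≠ 0) ∧
      ∀ (K : Type u) [Field K] (V : Type v) [AddCommGroup V] [Module K V] (w : Fin N → V),
        ¬ ∀ S : Set (Fin N), LinearIndependent K (fun i : S => w i) ↔
          AlgebraicIndependent F (fun i : S => g i) := by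
  refine ⟨13, 4, QMat2.g F, fun i => ⟨QMat2.g_hom i, ?_⟩,
    fun K _ V _ _ w => QMat2.not_rep w⟩
  intro h
  have h1 := congrArg (MvPolynomial.eval ![1, 0, 0, 0]) h
  have h2 := congrArg (MvPolynomial.eval ![0, 1, 0, 0]) h
  have h3 := congrArg (MvPolynomial.eval ![0, 0, 1, 0]) h
  have h4 := congrArg (MvPolynomial.eval ![1, 1, 1, 1]) h
  fin_cases i <;> simp [QMat2.g] at h1 h2 h3 h4
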