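import Mathlib
import Pool.Agent.H79.QMat1

set_option autoImplicit false

open Pool.Agent.H79 Pool.Agent.H79.QMatDefs in
theorem Pool.Agent.Results.MP_188fab_co.RankDrop.result (F : Type) [Field F] [CharP F 2] :
    (jac F (⊤ : SimpleGraph (Fin 3)) (⊤ : SimpleGraph (Fin 3))).rank ≤ 8 ∧
      spread (idealJ F (⊤ : SimpleGraph (Fin 3)) (⊤ : SimpleGraph (Fin 3))) = 9 :=
  ⟨QMat1.rank_K3, QMat1.spread_K3⟩
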